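import Mathlib

/-!
# Random monster groups are super-rigid with respect to every countable group

We formalise the random group `Γ_α` obtained by labelling a sequence of finite connected graphs
with i.i.d. uniform labels in `T ^ j ⊆ F_k`, and prove that for every discrete subgroup `G` of a
second countable topological group (in particular for every countable group `G`, and for every
lattice `G` in a finite product of simple Lie groups and simple algebraic groups over local
fields), for almost every labelling every homomorphism `Γ_α → G` has finite image.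
-/

open MeasureTheory ProbabilityTheory
open scoped Pointwise

namespace Pool.Agent.Results.MP_a330b1_al.SuperRigid

/-- A finite graph in the sense of Serre: a finite set `V` of vertices, a finite set `E` of
oriented edges, each oriented edge `e` having an origin `src e` and an inverse (oppositely
oriented) edge `inv e ≠ e`.  Loops and multiple edges are allowed; finite simple graphs are the
case in which an oriented edge is determined by its two distinct ends. -/
structure FinGraph where
  V : Type
  E : Type
  [finV : Finite V]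
  [finE : Finite E]
  src : E → V
  inv : E → E
  inv_inv : ∀ e, inv (inv e) = e
  inv_ne : ∀ e, inv e ≠ e

attribute [instance] FinGraph.finV FinGraph.finE

namespace FinGraph

/-- `X.IsPath u v p`: the list `p` of oriented edges is a path in `X` from `u` to `v` (the
terminus of `e` is the origin of `inv e`). -/
inductive IsPath (X : FinGraph) : X.V → X.V → List X.E → Prop
  | nil (v : X.V) : IsPath X v v []
  | cons (e : X.E) {v : X.V} {p : List X.E} (h : IsPath X (X.src (X.inv e)) v p) :
      IsPath X (X.src e) v (e :: p)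

/-- A graph is connected if it is nonempty and any two vertices are joined by a path. -/
def Connected (X : FinGraph) : Prop :=
  Nonempty X.V ∧ ∀ u v : X.V, ∃ p, X.IsPath u v p

/-- The degree of a vertex: the number of oriented edges issuing from it. -/
noncomputable def degree (X : FinGraph) (v : X.V) : ℕ :=
  Nat.card {e : X.E // X.src e = v}

end FinGraph

/-- The symmetric generating set `T` of the free group `F_k`: the `k` free generators and their
inverses. -/
def symGens (k : ℕ) : Set (FreeGroup (Fin k)) :=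
  {w | ∃ i, w = FreeGroup.of i ∨ w = (FreeGroup.of i)⁻¹}

/-- `Labelling k j X` is the set `𝒜(X, T ^ j)` of labellings: each oriented edge `e` gets a label
`α e` in `T ^ j` (the set of products of `j` elements of `T`), with `α (inv e) = (α e)⁻¹`. -/
def Labelling (k j : ℕ) (X : FinGraph) : Type :=
  {α : X.E → FreeGroup (Fin k) // (∀ e, α e ∈ symGens k ^ j) ∧ ∀ e, α (X.inv e) = (α e)⁻¹}

/-- Every set of labellings (of one finite graph) is an event. -/
instance (k j : ℕ) (X : FinGraph) : MeasurableSpace (Labelling k j X) := ⊤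

/-- The product, over `n`, of the uniform distributions on the finite sets `𝒜(Ω n, T ^ j)`. -/
noncomputable def labellingMeasure (k j : ℕ) (Ω : ℕ → FinGraph) :
    Measure (∀ n, Labelling k j (Ω n)) :=
  Measure.infinitePi fun n => uniformOn (Set.univ : Set (Labelling k j (Ω n)))

/-- The words read along the closed paths of `⨆ n, Ω n` with labels `α`. -/
def relators {k j : ℕ} (Ω : ℕ → FinGraph) (α : ∀ n, Labelling k j (Ω n)) :
    Set (FreeGroup (Fin k)) :=
  {w | ∃ (n : ℕ) (v : (Ω n).V) (p : List (Ω n).E),
    (Ω n).IsPath v v p ∧ w = (p.map (α n).1).prod}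

/-- The random monster group `Γ_α = F_k / ⟨⟨R_α⟩⟩`. -/
abbrev MonsterGroup {k j : ℕ} (Ω : ℕ → FinGraph) (α : ∀ n, Labelling k j (Ω n)) : Type :=
  PresentedGroup (relators Ω α)

/-! ### Finiteness and nonemptiness of the set of labellings -/

lemma symGens_finite (k : ℕ) : (symGens k).Finite := by
  have : symGens k = (Set.range fun i : Fin k => FreeGroup.of i) ∪
      (Set.range fun i : Fin k => (FreeGroup.of i)⁻¹) := by
    ext w
    simp only [symGens, Set.mem_ofPred_eq, Set.mem_union, Set.mem_range]
    constructor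
    · rintro ⟨i, h | h⟩
      · exact Or.inl ⟨i, h.symm⟩
      · exact Or.inr ⟨i, h.symm⟩
    · rintro (⟨i, h⟩ | ⟨i, h⟩)
      · exact ⟨i, Or.inl h.symm⟩
      · exact ⟨i, Or.inr h.symm⟩
  rw [this]
  exact (Set.finite_range _).union (Set.finite_range _)

lemma symGens_inv {k : ℕ} {w : FreeGroup (Fin k)} (h : w ∈ symGens k) : w⁻¹ ∈ symGens k := by
  obtain ⟨i, h | h⟩ := h
  · exact ⟨i, Or.inr (by rw [h])⟩
  · exact ⟨i, Or.inl (by rw [h, inv_inv])⟩

lemma symGens_pow_finite (k j : ℕ) : (symGens k ^ j).Finite := by
  induction j with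
  | zero => rw [pow_zero]; exact Set.finite_one
  | succ j ih => rw [pow_succ]; exact ih.mul (symGens_finite k)

lemma symGens_pow_inv {k : ℕ} (j : ℕ) {w : FreeGroup (Fin k)} (h : w ∈ symGens k ^ j) :
    w⁻¹ ∈ symGens k ^ j := by
  induction j generalizing w with
  | zero =>
    rw [pow_zero] at h ⊢
    rw [Set.mem_one] at h ⊢
    rw [h, inv_one]
  | succ j ih =>
    rw [pow_succ] at h
    obtain ⟨a, ha, b, hb, rfl⟩ := Set.mem_mul.1 h
    rw [pow_succ', mul_inv_rev]
    exact Set.mul_mem_mul (symGens_inv hb) (ih ha)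

instance labelling_finite (k j : ℕ) (X : FinGraph) : Finite (Labelling k j X) := by
  have : Finite (symGens k ^ j : Set (FreeGroup (Fin k))) := symGens_pow_finite k j
  let f : Labelling k j X → (X.E → (symGens k ^ j : Set (FreeGroup (Fin k)))) :=
    fun α e => ⟨α.1 e, α.2.1 e⟩
  refine Finite.of_injective f ?_
  intro α β h
  apply Subtype.ext
  funext e
  exact congrArg Subtype.val (congrFun h e)

lemma symGens_pow_nonempty {k : ℕ} (hk : 0 < k) (j : ℕ) : (symGens k ^ j).Nonempty := by
  refine Set.Nonempty.pow ?_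
  exact ⟨FreeGroup.of ⟨0, hk⟩, ⟨0, hk⟩, Or.inl rfl⟩

lemma labelling_nonempty {k : ℕ} (hk : 0 < k) (j : ℕ) (X : FinGraph) :
    Nonempty (Labelling k j X) := by
  classical
  obtain ⟨w, hw⟩ := symGens_pow_nonempty hk j
  obtain ⟨n, ⟨φ⟩⟩ := Finite.exists_equiv_fin X.E
  refine ⟨⟨fun e => if φ e < φ (X.inv e) then w else w⁻¹, ?_, ?_⟩⟩
  · intro e
    dsimp only
    split_ifs
    · exact hw
    · exact symGens_pow_inv j hw
  · intro e
    dsimp only
    have hne : φ e ≠ φ (X.inv e) := fun h => X.inv_ne e (φ.injective h).symm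
    rw [X.inv_inv]
    rcases lt_or_gt_of_ne hne with h | h
    · rw [if_pos h, if_neg (not_lt.2 h.le)]
    · rw [if_neg (not_lt.2 h.le), if_pos h, inv_inv]

/-! ### A finite graph with all degrees at least two contains a simple closed path -/

/-- In a nonempty finite graph all of whose vertices have degree at least two there are an
oriented edge `e₀` and a path from its terminus to its origin which uses neither `e₀` nor its
inverse. -/
lemma exists_cycle (X : FinGraph) [Nonempty X.V] (hdeg : ∀ v, 2 ≤ X.degree v) :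
    ∃ (e₀ : X.E) (p : List X.E), X.IsPath (X.src (X.inv e₀)) (X.src e₀) p ∧
      e₀ ∉ p ∧ X.inv e₀ ∉ p := by
  classical
  -- a non-backtracking successor map
  have hnext : ∀ e : X.E, ∃ e' : X.E, X.src e' = X.src (X.inv e) ∧ e' ≠ X.inv e := by
    intro e
    by_contra! hcon
    have h2 := hdeg (X.src (X.inv e))
    have : Nat.card {e' : X.E // X.src e' = X.src (X.inv e)} ≤ 1 := by
      rw [Finite.card_le_one_iff_subsingleton]
      refine ⟨fun a b => Subtype.ext ?_⟩
      rw [hcon a.1 a.2, hcon b.1 b.2]
    unfold FinGraph.degree at h2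
    omega
  choose next hsrc hne using hnext
  obtain ⟨v₀⟩ := (inferInstance : Nonempty X.V)
  have hstart : Nonempty {e' : X.E // X.src e' = v₀} := by
    have h2 := hdeg v₀
    unfold FinGraph.degree at h2
    by_contra hcon
    rw [not_nonempty_iff] at hcon
    rw [Nat.card_of_isEmpty] at h2
    omega
  obtain ⟨⟨eS, -⟩⟩ := hstart
  let s : ℕ → X.E := fun n => next^[n] eS
  have hs : ∀ n, s (n + 1) = next (s n) := fun n => Function.iterate_succ_apply' next n eS
  have hsv : ∀ n, X.src (s (n + 1)) = X.src (X.inv (s n)) := fun n => by rw [hs, hsrc]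
  have hrep : ∃ m : ℕ, ∃ i, i < m ∧ X.src (s i) = X.src (s m) := by
    obtain ⟨a, b, hab, h⟩ := Finite.exists_ne_map_eq_of_infinite (fun n => X.src (s n))
    rcases lt_or_gt_of_ne hab with h' | h'
    · exact ⟨b, a, h', h⟩
    · exact ⟨a, b, h', h.symm⟩
  obtain ⟨i, him, hi⟩ := Nat.find_spec hrep
  set m := Nat.find hrep with hm
  have hinj : ∀ a b, a < b → b < m → X.src (s a) ≠ X.src (s b) := by
    intro a b hab hbm h
    exact Nat.find_min hrep hbm ⟨a, hab, h⟩
  have hpath : ∀ n a, X.IsPath (X.src (s a)) (X.src (s (a + n))) ((List.range' a n).map s) := by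
    intro n
    induction n with
    | zero => intro a; exact FinGraph.IsPath.nil _
    | succ n ih =>
      intro a
      rw [List.range'_succ, List.map_cons]
      refine FinGraph.IsPath.cons _ ?_
      rw [← hsv]
      have := ih (a + 1)
      rwa [show a + 1 + n = a + (n + 1) by ring] at this
  refine ⟨s i, (List.range' (i + 1) (m - (i + 1))).map s, ?_, ?_, ?_⟩
  · have := hpath (m - (i + 1)) (i + 1)
    rw [show i + 1 + (m - (i + 1)) = m by omega, hsv, ← hi] at this
    exact this
  · intro hmem
    rw [List.mem_map] at hmem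
    obtain ⟨l, hl, hls⟩ := hmem
    rw [List.mem_range'_1] at hl
    exact hinj i l (by omega) (by omega) (by rw [hls])
  · intro hmem
    rw [List.mem_map] at hmem
    obtain ⟨l, hl, hls⟩ := hmem
    rw [List.mem_range'_1] at hl
    have h1 : X.src (s l) = X.src (s (i + 1)) := by rw [hls, hsv]
    rcases Nat.lt_or_ge (i + 1) l with h' | h'
    · exact hinj (i + 1) l h' (by omega) h1.symm
    · have : l = i + 1 := by omega
      subst this
      rw [hs] at hls
      exact hne (s i) hls

/-! ### One graph: a fixed homomorphism rarely kills all closed paths -/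

/-- The event that the homomorphism `ρ : F_k → G` kills all the words read along closed paths
of `X`. -/
def killed {k j : ℕ} {G : Type*} [Group G] (ρ : FreeGroup (Fin k) →* G) (X : FinGraph) :
    Set (Labelling k j X) :=
  {α | ∀ v p, X.IsPath v v p → ρ (p.map α.1).prod = 1}

/-- Relabel one edge (and its inverse). -/
noncomputable def relabel {k j : ℕ} {X : FinGraph} (α : Labelling k j X) (e₀ : X.E)
    (w : FreeGroup (Fin k)) (hw : w ∈ symGens k ^ j) : Labelling k j X := by
  classical
  refine ⟨fun e => if e = e₀ then w else if e = X.inv e₀ then w⁻¹ else α.1 e, ?_, ?_⟩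
  · intro e
    dsimp only
    split_ifs
    · exact hw
    · exact symGens_pow_inv j hw
    · exact α.2.1 e
  · intro e
    dsimp only
    by_cases h1 : e = e₀
    · subst h1
      rw [if_neg (X.inv_ne e), if_pos rfl, if_pos rfl]
    · by_cases h2 : e = X.inv e₀
      · subst h2
        rw [X.inv_inv, if_pos rfl, if_neg (X.inv_ne e₀), if_pos rfl, inv_inv]
      · have h3 : X.inv e ≠ e₀ := fun h => h2 (by rw [← h, X.inv_inv])
        have h4 : X.inv e ≠ X.inv e₀ := fun h => h1 (by rw [← X.inv_inv e, h, X.inv_inv])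
        rw [if_neg h3, if_neg h4, if_neg h1, if_neg h2]
        exact α.2.2 e

lemma relabel_apply_self {k j : ℕ} {X : FinGraph} (α : Labelling k j X) (e₀ : X.E)
    (w : FreeGroup (Fin k)) (hw : w ∈ symGens k ^ j) : (relabel α e₀ w hw).1 e₀ = w := by
  simp [relabel]

lemma relabel_apply_of_ne {k j : ℕ} {X : FinGraph} (α : Labelling k j X) (e₀ : X.E)
    (w : FreeGroup (Fin k)) (hw : w ∈ symGens k ^ j) {e : X.E} (h1 : e ≠ e₀)
    (h2 : e ≠ X.inv e₀) : (relabel α e₀ w hw).1 e = α.1 e := by
  simp [relabel, h1, h2]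

lemma relabel_relabel {k j : ℕ} {X : FinGraph} (α : Labelling k j X) (e₀ : X.E)
    (w : FreeGroup (Fin k)) (hw : w ∈ symGens k ^ j) (w' : FreeGroup (Fin k))
    (hw' : w' ∈ symGens k ^ j) :
    relabel (relabel α e₀ w hw) e₀ w' hw' = relabel α e₀ w' hw' := by
  apply Subtype.ext
  funext e
  simp only [relabel]
  split_ifs <;> rfl

lemma relabel_self {k j : ℕ} {X : FinGraph} (α : Labelling k j X) (e₀ : X.E) :
    relabel α e₀ (α.1 e₀) (α.2.1 e₀) = α := by
  apply Subtype.ext
  funext e
  simp only [relabel]
  split_ifs with h1 h2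
  · rw [h1]
  · rw [h2, α.2.2]
  · rfl

/-- If `ρ` is not constant on `T ^ j` and `X` has all degrees at least two, then the probability
that `ρ` kills all closed paths of `X` is at most `1 - 1 / |T ^ j|`. -/
lemma card_killed {k j : ℕ} {G : Type*} [Group G] (ρ : FreeGroup (Fin k) →* G) (X : FinGraph)
    [Nonempty X.V] (hdeg : ∀ v, 2 ≤ X.degree v)
    (hρ : ∃ a ∈ symGens k ^ j, ∃ b ∈ symGens k ^ j, ρ a ≠ ρ b) :
    Nat.card (Labelling k j X) ≤
      Nat.card ((killed ρ X)ᶜ : Set (Labelling k j X)) *
        Nat.card (symGens k ^ j : Set (FreeGroup (Fin k))) := by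
  classical
  obtain ⟨e₀, p, hp, h1, h2⟩ := exists_cycle X hdeg
  have hfin : Finite (symGens k ^ j : Set (FreeGroup (Fin k))) := symGens_pow_finite k j
  -- for every labelling there is a relabelling of `e₀` which is not killed
  have key : ∀ α : Labelling k j X, ∃ w, ∃ hw : w ∈ symGens k ^ j,
      relabel α e₀ w hw ∈ ((killed ρ X)ᶜ : Set (Labelling k j X)) := by
    intro α
    by_contra! hcon
    obtain ⟨a, ha, b, hb, hab⟩ := hρ
    have hval : ∀ w (hw : w ∈ symGens k ^ j), ρ w * ρ (p.map α.1).prod = 1 := by
      intro w hw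
      have hk := hcon w hw
      rw [Set.notMem_compl_iff] at hk
      have hk' := hk (X.src e₀) (e₀ :: p) (FinGraph.IsPath.cons e₀ hp)
      rw [List.map_cons, List.prod_cons, map_mul, relabel_apply_self] at hk'
      have hmap : p.map (relabel α e₀ w hw).1 = p.map α.1 := by
        apply List.map_congr_left
        intro e he
        apply relabel_apply_of_ne
        · rintro rfl; exact h1 he
        · rintro rfl; exact h2 he
      rw [hmap] at hk'
      exact hk'
    apply hab
    have ea := hval a ha
    have eb := hval b hb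
    exact mul_right_cancel (ea.trans eb.symm)
  choose w hw hkill using key
  rw [← Nat.card_prod]
  refine Nat.card_le_card_of_injective
    (fun α : Labelling k j X => ((⟨relabel α e₀ (w α) (hw α), hkill α⟩,
      ⟨α.1 e₀, α.2.1 e₀⟩) : ((killed ρ X)ᶜ : Set (Labelling k j X)) ×
        (symGens k ^ j : Set (FreeGroup (Fin k))))) ?_
  intro α β hαβ
  simp only [Prod.mk.injEq, Subtype.mk.injEq] at hαβ
  obtain ⟨h3, h4⟩ := hαβ
  have e1 : relabel (relabel α e₀ (w α) (hw α)) e₀ (α.1 e₀) (α.2.1 e₀) = α := by
    rw [relabel_relabel, relabel_self]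
  have e2 : relabel (relabel β e₀ (w β) (hw β)) e₀ (β.1 e₀) (β.2.1 e₀) = β := by
    rw [relabel_relabel, relabel_self]
  rw [← e1, ← e2]
  congr 1

lemma measure_killed {k j : ℕ} {G : Type*} [Group G] (ρ : FreeGroup (Fin k) →* G) (X : FinGraph)
    [Nonempty X.V] (hdeg : ∀ v, 2 ≤ X.degree v) [Nonempty (Labelling k j X)]
    (hρ : ∃ a ∈ symGens k ^ j, ∃ b ∈ symGens k ^ j, ρ a ≠ ρ b) :
    uniformOn (Set.univ : Set (Labelling k j X)) (killed ρ X) ≤
      1 - (Nat.card (symGens k ^ j : Set (FreeGroup (Fin k))) : ENNReal)⁻¹ := by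
  classical
  have hc := card_killed ρ X hdeg hρ
  have : Fintype (Labelling k j X) := Fintype.ofFinite _
  have : MeasurableSingletonClass (Labelling k j X) := ⟨fun _ => trivial⟩
  set N := Nat.card (symGens k ^ j : Set (FreeGroup (Fin k))) with hN
  have hL : 0 < Nat.card (Labelling k j X) := Nat.card_pos
  have hcompl : (N : ENNReal)⁻¹ ≤
      uniformOn (Set.univ : Set (Labelling k j X)) ((killed ρ X)ᶜ) := by
    rw [uniformOn_univ, Measure.count_apply_finite _ (Set.toFinite _),
      ← Nat.card_eq_card_finite_toFinset, ← Nat.card_eq_fintype_card]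
    rw [ENNReal.le_div_iff_mul_le (Or.inl (by exact_mod_cast hL.ne'))
      (Or.inl (ENNReal.natCast_ne_top _)), mul_comm, ← div_eq_mul_inv]
    exact ENNReal.div_le_of_le_mul (by exact_mod_cast hc)
  have hprob : IsProbabilityMeasure (uniformOn (Set.univ : Set (Labelling k j X))) :=
    instIsProbabilityMeasure_uniformOn_univ
  have h := prob_compl_eq_one_sub (μ := uniformOn (Set.univ : Set (Labelling k j X)))
    (s := (killed ρ X)ᶜ) MeasurableSpace.measurableSet_top
  rw [compl_compl] at h
  rw [h]
  exact tsub_le_tsub_left hcompl 1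

/-! ### The product space -/

/-- The measure on the space of labellings is a probability measure. -/
lemma isProbabilityMeasure_labellingMeasure {k : ℕ} (hk : 0 < k) (j : ℕ) (Ω : ℕ → FinGraph) :
    IsProbabilityMeasure (labellingMeasure k j Ω) := by
  have hLn : ∀ n, Nonempty (Labelling k j (Ω n)) := fun n => labelling_nonempty hk j (Ω n)
  have hprob : ∀ n, IsProbabilityMeasure (uniformOn (Set.univ : Set (Labelling k j (Ω n)))) :=
    fun n => instIsProbabilityMeasure_uniformOn_univ
  unfold labellingMeasure
  infer_instance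

/-- If `ρ` is not constant on `T ^ j`, then almost surely `ρ` does not kill all relators. -/
lemma ae_not_killed {k j : ℕ} (hk : 0 < k) {G : Type*} [Group G] (ρ : FreeGroup (Fin k) →* G)
    (Ω : ℕ → FinGraph) (hne : ∀ n, Nonempty (Ω n).V) (hdeg : ∀ n v, 2 ≤ (Ω n).degree v)
    (hρ : ∃ a ∈ symGens k ^ j, ∃ b ∈ symGens k ^ j, ρ a ≠ ρ b) :
    ∀ᵐ α ∂(labellingMeasure k j Ω), ¬ ∀ w ∈ relators Ω α, ρ w = 1 := by
  classical
  have hLn : ∀ n, Nonempty (Labelling k j (Ω n)) := fun n => labelling_nonempty hk j (Ω n)
  have hprob : ∀ n, IsProbabilityMeasure (uniformOn (Set.univ : Set (Labelling k j (Ω n)))) :=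
    fun n => instIsProbabilityMeasure_uniformOn_univ
  set N := Nat.card (symGens k ^ j : Set (FreeGroup (Fin k))) with hN
  have hfin : Finite (symGens k ^ j : Set (FreeGroup (Fin k))) := symGens_pow_finite k j
  have hNpos : (N : ENNReal)⁻¹ ≠ 0 := ENNReal.inv_ne_zero.2 (ENNReal.natCast_ne_top _)
  have hlt : 1 - (N : ENNReal)⁻¹ < 1 := ENNReal.sub_lt_self ENNReal.one_ne_top one_ne_zero hNpos
  rw [ae_iff]
  refine le_antisymm ?_ bot_le
  -- bound the probability by that of killing the closed paths of the first `M` graphs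
  have hM : ∀ M : ℕ, labellingMeasure k j Ω {α | ¬ ¬ ∀ w ∈ relators Ω α, ρ w = 1} ≤
      (1 - (N : ENNReal)⁻¹) ^ M := by
    intro M
    have hsub : {α : ∀ n, Labelling k j (Ω n) | ¬ ¬ ∀ w ∈ relators Ω α, ρ w = 1} ⊆
        Set.pi (Finset.range M : Set ℕ) (fun n => killed ρ (Ω n)) := by
      intro α hα n _
      have hα' : ∀ w ∈ relators Ω α, ρ w = 1 := not_not.1 hα
      intro v p hp
      exact hα' _ ⟨n, v, p, hp, rfl⟩
    refine (measure_mono hsub).trans ?_
    unfold labellingMeasure
    rw [Measure.infinitePi_pi _ (fun n _ => MeasurableSpace.measurableSet_top)]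
    refine (Finset.prod_le_prod' (fun n _ => measure_killed ρ (Ω n) (hdeg n) hρ)).trans ?_
    rw [Finset.prod_const, Finset.card_range]
  have hlim : Filter.Tendsto (fun M : ℕ => (1 - (N : ENNReal)⁻¹) ^ M) Filter.atTop (nhds 0) :=
    ENNReal.tendsto_pow_atTop_nhds_zero_of_lt_one hlt
  exact ge_of_tendsto' hlim hM

/-- A homomorphism which is constant on `T ^ j`, `j ≥ 1`, has finite image. -/
lemma finite_range_of_const {k j : ℕ} (hj : 1 ≤ j) {G : Type*} [Group G]
    (ρ : FreeGroup (Fin k) →* G)
    (hρ : ∀ a ∈ symGens k ^ j, ∀ b ∈ symGens k ^ j, ρ a = ρ b) :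
    (Set.range ρ).Finite := by
  classical
  -- `ρ` is constant on `T`
  have hT : ∀ a ∈ symGens k, ∀ b ∈ symGens k, ρ a = ρ b := by
    intro a ha b hb
    obtain ⟨j', rfl⟩ : ∃ j', j = j' + 1 := ⟨j - 1, by omega⟩
    obtain ⟨c, hc⟩ : (symGens k ^ j').Nonempty := Set.Nonempty.pow ⟨a, ha⟩
    have h := hρ (c * a) (by rw [pow_succ]; exact Set.mul_mem_mul hc ha)
      (c * b) (by rw [pow_succ]; exact Set.mul_mem_mul hc hb)
    rw [map_mul, map_mul] at h
    exact mul_left_cancel h
  rcases Nat.eq_zero_or_pos k with h0 | h0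
  · subst h0
    exact Set.finite_range ρ
  · let x₀ : FreeGroup (Fin k) := FreeGroup.of ⟨0, h0⟩
    have hx₀ : x₀ ∈ symGens k := ⟨_, Or.inl rfl⟩
    have hinv : (ρ x₀)⁻¹ = ρ x₀ := by
      rw [← map_inv]
      exact hT _ (symGens_inv hx₀) _ hx₀
    have hsq : ρ x₀ * ρ x₀ = 1 := by
      nth_rewrite 1 [← hinv]
      exact inv_mul_cancel _
    have hval : ∀ w : FreeGroup (Fin k), ρ w = 1 ∨ ρ w = ρ x₀ := by
      intro w
      induction w using FreeGroup.induction_on with
      | C1 => exact Or.inl (map_one ρ)
      | of i => exact Or.inr (hT _ ⟨i, Or.inl rfl⟩ _ hx₀)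
      | inv_of i _ => exact Or.inr (hT _ ⟨i, Or.inr rfl⟩ _ hx₀)
      | mul a b ha hb =>
        rw [map_mul]
        rcases ha with ha | ha <;> rcases hb with hb | hb <;> rw [ha, hb]
        · exact Or.inl (one_mul _)
        · exact Or.inr (one_mul _)
        · exact Or.inr (mul_one _)
        · exact Or.inl hsq
    refine (Set.toFinite ({1, ρ x₀} : Set G)).subset ?_
    rintro _ ⟨w, rfl⟩
    rcases hval w with h | h
    · exact Or.inl h
    · exact Or.inr h

/-- **Super-rigidity of random monster groups with respect to every countable group.**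

Let `Ω n` be finite connected graphs all of whose vertices have degree at least three (no bound
on the degrees and no girth, diameter or expansion condition is needed), let `k ≥ 1`, `j ≥ 1`,
and let `G` be a discrete subgroup of a second countable topological group `H`; in particular `G`
may be any countable group, or any lattice in a finite product of simple Lie groups and simple
algebraic groups over local fields.  Then for almost every labelling `α` every homomorphism
`Γ_α → G` has finite image. -/
theorem result (k j : ℕ) (hk : 1 ≤ k) (hj : 1 ≤ j) (Ω : ℕ → FinGraph)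
    (hconn : ∀ n, (Ω n).Connected) (hdeg : ∀ n v, 3 ≤ (Ω n).degree v)
    (H : Type*) [Group H] [TopologicalSpace H] [IsTopologicalGroup H]
    [SecondCountableTopology H] (G : Subgroup H) [DiscreteTopology G] :
    ∀ᵐ α ∂(labellingMeasure k j Ω), ∀ φ : MonsterGroup Ω α →* G, (Set.range φ).Finite := by
  classical
  have hcount : Countable G := countable_of_Lindelof_of_discrete
  have hcountHom : Countable (FreeGroup (Fin k) →* G) := by
    have : Countable (Fin k → G) := inferInstance
    exact (FreeGroup.lift (α := Fin k) (β := G)).symm.injective.countable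
  have hall : ∀ᵐ α ∂(labellingMeasure k j Ω), ∀ ρ : FreeGroup (Fin k) →* G,
      (∃ a ∈ symGens k ^ j, ∃ b ∈ symGens k ^ j, ρ a ≠ ρ b) →
        ¬ ∀ w ∈ relators Ω α, ρ w = 1 := by
    rw [ae_all_iff]
    intro ρ
    by_cases hρ : ∃ a ∈ symGens k ^ j, ∃ b ∈ symGens k ^ j, ρ a ≠ ρ b
    · filter_upwards [ae_not_killed hk ρ Ω (fun n => (hconn n).1)
        (fun n v => le_trans (by norm_num) (hdeg n v)) hρ] with α hα _
      exact hα
    · exact Filter.Eventually.of_forall fun α h => absurd h hρ
  filter_upwards [hall] with α hα φ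
  let ρ : FreeGroup (Fin k) →* G := φ.comp (PresentedGroup.mk (relators Ω α))
  have hker : ∀ w ∈ relators Ω α, ρ w = 1 := by
    intro w hw
    have : PresentedGroup.mk (relators Ω α) w = 1 := PresentedGroup.one_of_mem hw
    change φ (PresentedGroup.mk (relators Ω α) w) = 1
    rw [this, map_one]
  have hconst : ∀ a ∈ symGens k ^ j, ∀ b ∈ symGens k ^ j, ρ a = ρ b := by
    by_contra! hcon
    exact hα ρ hcon hker
  refine (finite_range_of_const hj ρ hconst).subset ?_
  rintro _ ⟨g, rfl⟩
  obtain ⟨w, rfl⟩ := PresentedGroup.mk_surjective (relators Ω α) g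
  exact ⟨w, rfl⟩

end Pool.Agent.Results.MP_a330b1_al.SuperRigid
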